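import Pool.Agent.helper84.TEX.Spec

/-!
Row XE1 of project A+ (MP_3703a7_ag), owner helper84: distinct representatives.
-/

set_option autoImplicit false

namespace Pool.Agent.TEX

open Pool.Agent.TC Pool.Agent.TN Polynomial

noncomputable section

theorem XE1_fin (ι : Type) (A : ι → Set ℕ) (B : ℕ) (hA : ∀ i, (A i).Infinite) (s : Finset ι) :
    ∃ x : ι → ℕ, Set.InjOn x (s : Set ι) ∧ ∀ i ∈ s, x i ∈ A i ∧ B ≤ x i := by
  classical
  induction s using Finset.induction_on with
  | empty => exact ⟨fun _ => 0, by simp, by simp⟩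
  | insert i s hi ih =>
    obtain ⟨x, hx1, hx2⟩ := ih
    obtain ⟨b, hb, hlt⟩ := (hA i).exists_gt (B + ∑ j ∈ s, x j)
    have hbig : ∀ j ∈ s, x j < b := by
      intro j hj
      have h1 : x j ≤ ∑ j ∈ s, x j := Finset.single_le_sum (f := x) (fun _ _ => Nat.zero_le _) hj
      omega
    have hne : ∀ j ∈ s, j ≠ i := fun j hj h => hi (h ▸ hj)
    refine ⟨Function.update x i b, ?_, ?_⟩
    · intro j hj j' hj' h
      rw [Finset.mem_coe, Finset.mem_insert] at hj hj'
      rcases hj with rfl | hj <;> rcases hj' with rfl | hj'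
      · rfl
      · rw [Function.update_self, Function.update_of_ne (hne j' hj')] at h
        exact absurd h (hbig j' hj').ne'
      · rw [Function.update_self, Function.update_of_ne (hne j hj)] at h
        exact absurd h (hbig j hj).ne
      · rw [Function.update_of_ne (hne j hj), Function.update_of_ne (hne j' hj')] at h
        exact hx1 (Finset.mem_coe.2 hj) (Finset.mem_coe.2 hj') h
    · intro j hj
      rw [Finset.mem_insert] at hj
      rcases hj with rfl | hj
      · rw [Function.update_self]
        exact ⟨hb, by omega⟩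
      · rw [Function.update_of_ne (hne j hj)]
        exact hx2 j hj

theorem XE1 : XE1_stmt := by
  intro ι _ A B hA
  obtain ⟨x, hx1, hx2⟩ := XE1_fin ι A B hA Finset.univ
  refine ⟨x, fun i j h => hx1 ?_ ?_ h, fun i => hx2 i (Finset.mem_univ i)⟩ <;> simp

end

end Pool.Agent.TEX
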