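import Pool.Agent.helper84.TEX.Spec

/-!
Row XE2 of project A+ (MP_3703a7_ag), owner helper84: primes which are 1 modulo `l` and primitive roots modulo `m`.
-/

set_option autoImplicit false

namespace Pool.Agent.TEX

open Pool.Agent.TC Pool.Agent.TN Polynomial

noncomputable section

theorem XE2 : XE2_stmt := by
  intro l m hl hm hlm
  have := Fact.mk hl
  have := Fact.mk hm
  have : NeZero (l * m) := ⟨Nat.mul_ne_zero hl.ne_zero hm.ne_zero⟩
  have hcop : Nat.Coprime l m := (Nat.coprime_primes hl hm).2 hlm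
  obtain ⟨g, hg⟩ := IsCyclic.exists_generator (α := (ZMod m)ˣ)
  have hord : orderOf g = m - 1 := by
    have h1 : orderOf g = Nat.card (ZMod m)ˣ := orderOf_eq_card_of_forall_mem_zpowers hg
    rw [h1, Nat.card_eq_fintype_card, ZMod.card_units]
  obtain ⟨a, ha⟩ : ∃ a : ZMod (l * m), a = (ZMod.chineseRemainder hcop).symm (1, (g : ZMod m)) := ⟨_, rfl⟩
  have hau : IsUnit a := by
    rw [ha]
    refine IsUnit.map (ZMod.chineseRemainder hcop).symm ?_
    exact Prod.isUnit_iff.2 ⟨isUnit_one, g.isUnit⟩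
  have hinf : {p : ℕ | p.Prime ∧ (p : ZMod (l * m)) = a}.Infinite := Nat.infinite_setOfPred_prime_and_eq_mod hau
  refine hinf.mono ?_
  rintro p ⟨hp, hpa⟩
  have hcr : ZMod.chineseRemainder hcop (p : ZMod (l * m)) = (1, (g : ZMod m)) := by
    rw [hpa, ha, RingEquiv.apply_symm_apply]
  rw [map_natCast] at hcr
  have h1 : ((p : ℕ) : ZMod l) = 1 := by
    have := congrArg Prod.fst hcr
    simpa using this
  have h2 : ((p : ℕ) : ZMod m) = (g : ZMod m) := by
    have := congrArg Prod.snd hcr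
    simpa using this
  refine ⟨hp, ?_, ?_⟩
  · have h3 : ((p - 1 : ℕ) : ZMod l) = 0 := by
      rw [Nat.cast_sub hp.one_le, h1]
      simp
    exact (ZMod.natCast_eq_zero_iff _ _).1 h3
  · intro r hr hdvd
    have h3 : ((p ^ r - 1 : ℕ) : ZMod m) = 0 := (ZMod.natCast_eq_zero_iff _ _).2 hdvd
    rw [Nat.cast_sub (Nat.one_le_pow _ _ hp.pos), Nat.cast_pow, h2, Nat.cast_one, sub_eq_zero] at h3
    have h4 : g ^ r = 1 := by
      apply Units.ext
      rw [Units.val_pow_eq_pow_val, h3, Units.val_one]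
    have h5 := orderOf_dvd_of_pow_eq_one h4
    rw [hord] at h5
    exact Nat.le_of_dvd hr h5

end

end Pool.Agent.TEX
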