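import Pool.Agent.helper84.TEX.Spec

/-!
Row XIE of project A+ (MP_3703a7_ag), owner helper84: the criterion of Eisenstein.
-/

set_option autoImplicit false

namespace Pool.Agent.TEX

open Pool.Agent.TC Pool.Agent.TN Polynomial

noncomputable section

theorem XIE_low {n : ℕ} (f : Fin (n + 1) → ℤ) : (∑ k, C (f k) * X ^ (k : ℕ) : Polynomial ℤ).degree < ((n + 1 : ℕ) : WithBot ℕ) := by
  refine (Polynomial.degree_sum_le _ _).trans_lt ?_
  rw [Finset.sup_lt_iff (WithBot.bot_lt_coe _)]
  intro k _
  refine (Polynomial.degree_C_mul_X_pow_le _ _).trans_lt ?_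
  exact_mod_cast k.2

theorem XIE_monic {n : ℕ} (f : Fin (n + 1) → ℤ) : (pol f).Monic ∧ (pol f).degree = ((n + 1 : ℕ) : WithBot ℕ) := by
  unfold pol
  refine ⟨Polynomial.monic_X_pow_add (XIE_low f), ?_⟩
  rw [Polynomial.degree_add_eq_left_of_degree_lt, Polynomial.degree_X_pow]
  rw [Polynomial.degree_X_pow]
  exact XIE_low f

theorem XIE_coeff {n : ℕ} (f : Fin (n + 1) → ℤ) (k : Fin (n + 1)) : (pol f).coeff (k : ℕ) = f k := by
  unfold pol
  rw [Polynomial.coeff_add, Polynomial.coeff_X_pow, if_neg (by have := k.2; omega), zero_add, Polynomial.finsetSum_coeff,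
    Finset.sum_eq_single k]
  · rw [Polynomial.coeff_C_mul_X_pow, if_pos rfl]
  · intro b _ hb
    rw [Polynomial.coeff_C_mul_X_pow, if_neg]
    intro h
    exact hb (Fin.ext h.symm)
  · intro h
    exact absurd (Finset.mem_univ k) h

theorem XIE : XIE_stmt := by
  intro n f p hp hd hnd
  obtain ⟨hm, hdeg⟩ := XIE_monic f
  have hpZ : Prime (p : ℤ) := Nat.prime_iff_prime_int.1 hp
  have hirr : Irreducible (pol f) := by
    refine Polynomial.irreducible_of_eisenstein_criterion (P := Ideal.span {(p : ℤ)})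
      ((Ideal.span_singleton_prime hpZ.ne_zero).2 hpZ) ?_ ?_ ?_ ?_ hm.isPrimitive
    · rw [hm.leadingCoeff, Ideal.mem_span_singleton]
      exact hpZ.not_dvd_one
    · intro k hk
      rw [hdeg] at hk
      have hk' : k < n + 1 := by exact_mod_cast hk
      rw [Ideal.mem_span_singleton]
      have := XIE_coeff f ⟨k, hk'⟩
      rw [this]
      exact hd _
    · rw [hdeg]
      exact_mod_cast Nat.succ_pos n
    · have := XIE_coeff f 0
      rw [Fin.val_zero] at this
      rw [this, Ideal.span_singleton_pow, Ideal.mem_span_singleton]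
      exact hnd
  exact (Polynomial.IsPrimitive.Int.irreducible_iff_irreducible_map_cast hm.isPrimitive).1 hirr

end

end Pool.Agent.TEX
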