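import Pool.Agent.helper84.TEX.Spec

/-!
Row XRT of project A+ (MP_3703a7_ag), owner helper84: the roots in the algebraic closure of the field of r-adic numbers.
-/

set_option autoImplicit false

namespace Pool.Agent.TEX

open Pool.Agent.TC Pool.Agent.TN Polynomial

noncomputable section

theorem XRT_low {R : Type} [CommRing R] {n : ℕ} (f : Fin (n + 1) → R) :
    (∑ k, C (f k) * X ^ (k : ℕ) : Polynomial R).degree < ((n + 1 : ℕ) : WithBot ℕ) := by
  refine (Polynomial.degree_sum_le _ _).trans_lt ?_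
  rw [Finset.sup_lt_iff (WithBot.bot_lt_coe _)]
  intro k _
  refine (Polynomial.degree_C_mul_X_pow_le _ _).trans_lt ?_
  exact_mod_cast k.2

theorem XRT_monic {R : Type} [CommRing R] [Nontrivial R] {n : ℕ} (f : Fin (n + 1) → R) :
    (X ^ (n + 1) + ∑ k, C (f k) * X ^ (k : ℕ) : Polynomial R).Monic ∧
    (X ^ (n + 1) + ∑ k, C (f k) * X ^ (k : ℕ) : Polynomial R).natDegree = n + 1 := by
  refine ⟨Polynomial.monic_X_pow_add (XRT_low f), ?_⟩
  apply Polynomial.natDegree_eq_of_degree_eq_some
  rw [Polynomial.degree_add_eq_left_of_degree_lt, Polynomial.degree_X_pow]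
  rw [Polynomial.degree_X_pow]
  exact XRT_low f

theorem XRT_map {R : Type} [CommRing R] {n : ℕ} (f : Fin (n + 1) → ℤ) :
    (pol f).map (Int.castRingHom R) = X ^ (n + 1) + ∑ k, C ((f k : ℤ) : R) * X ^ (k : ℕ) := by
  unfold pol
  rw [Polynomial.map_add, Polynomial.map_pow, Polynomial.map_X, Polynomial.map_sum]
  congr 1
  refine Finset.sum_congr rfl fun k _ => ?_
  rw [Polynomial.map_mul, Polynomial.map_C, Polynomial.map_pow, Polynomial.map_X]
  rfl

/-- Monic polynomial with a full set of different roots. -/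
theorem XRT_full {K : Type} [Field K] {n : ℕ} (F : Polynomial K) (hF : F.Monic) (hd : F.natDegree = n + 1)
    (β : Fin (n + 1) → K) (hβ : Function.Injective β) (hr : ∀ k, F.eval (β k) = 0) (x : K) (hx : F.eval x = 0) :
    ∃ k, x = β k := by
  classical
  by_contra hcon
  push Not at hcon
  have hF0 : F ≠ 0 := hF.ne_zero
  have h1 : insert x (Finset.univ.image β) ⊆ F.roots.toFinset := by
    intro y hy
    rw [Multiset.mem_toFinset, Polynomial.mem_roots hF0]
    rw [Finset.mem_insert] at hy
    rcases hy with rfl | hy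
    · exact hx
    · obtain ⟨k, -, rfl⟩ := Finset.mem_image.1 hy
      exact hr k
  have h2 := Finset.card_le_card h1
  have h3 : x ∉ Finset.univ.image β := by
    intro h
    obtain ⟨k, -, hk⟩ := Finset.mem_image.1 h
    exact hcon k hk.symm
  rw [Finset.card_insert_of_notMem h3, Finset.card_image_of_injective _ hβ, Finset.card_univ, Fintype.card_fin] at h2
  have h4 : F.roots.toFinset.card ≤ F.natDegree := (Multiset.toFinset_card_le _).trans (Polynomial.card_roots' F)
  omega

theorem XRT : XRT_stmt := by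
  intro n r _ f α a ψ hα hαi ha hai
  obtain ⟨F, hF⟩ : ∃ F : Polynomial (Om r), F = X ^ (n + 1) + ∑ k, C ((f k : ℤ) : Om r) * X ^ (k : ℕ) := ⟨_, rfl⟩
  obtain ⟨hm, hd⟩ := XRT_monic (R := Om r) fun k => ((f k : ℤ) : Om r)
  rw [← hF] at hm hd
  obtain ⟨β, hβ⟩ : ∃ β : Fin (n + 1) → Om r, β = fun k => algebraMap ℚ_[r] (Om r) (α k : ℚ_[r]) := ⟨_, rfl⟩
  have hβi : Function.Injective β := by
    rw [hβ]
    intro k k' h
    exact hαi (Subtype.ext ((algebraMap ℚ_[r] (Om r)).injective h))
  have hev : ∀ x : Om r, F.eval x = x ^ (n + 1) + ∑ k, ((f k : ℤ) : Om r) * x ^ (k : ℕ) := by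
    intro x
    rw [hF, Polynomial.eval_add, Polynomial.eval_pow, Polynomial.eval_X, Polynomial.eval_finsetSum]
    congr 1
    refine Finset.sum_congr rfl fun k _ => ?_
    rw [Polynomial.eval_mul, Polynomial.eval_C, Polynomial.eval_pow, Polynomial.eval_X]
  have hβr : ∀ k, F.eval (β k) = 0 := by
    intro k
    have h1 := hα k
    rw [XRT_map, Polynomial.eval_add, Polynomial.eval_pow, Polynomial.eval_X, Polynomial.eval_finsetSum] at h1
    have h0 : ∀ j : Fin (n + 1), (C ((f j : ℤ) : ℤ_[r]) * X ^ (j : ℕ) : Polynomial ℤ_[r]).eval (α k) =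
        ((f j : ℤ) : ℤ_[r]) * α k ^ (j : ℕ) := by
      intro j
      rw [Polynomial.eval_mul, Polynomial.eval_C, Polynomial.eval_pow, Polynomial.eval_X]
    rw [Finset.sum_congr rfl fun j _ => h0 j] at h1
    have h2 := congrArg (fun t : ℤ_[r] => algebraMap ℚ_[r] (Om r) (t : ℚ_[r])) h1
    rw [hev, hβ]
    simp only [PadicInt.coe_add, PadicInt.coe_pow, PadicInt.coe_sum, PadicInt.coe_mul, PadicInt.coe_intCast,
      PadicInt.coe_zero, map_add, map_pow, map_sum, map_mul, map_intCast, map_zero] at h2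
    exact h2
  have hψr : ∀ j, F.eval (ψ (a j)) = 0 := by
    intro j
    have h1 := congrArg ψ (ha j)
    rw [map_add, map_pow, map_sum, map_zero] at h1
    rw [hev]
    simp only [map_mul, map_pow, map_intCast] at h1
    exact h1
  have hex : ∀ j, ∃ k, ψ (a j) = β k := fun j => XRT_full F hm hd β hβi hβr _ (hψr j)
  choose π hπ using hex
  have hπi : Function.Injective π := by
    intro j j' h
    apply hai
    apply ψ.injective
    rw [hπ, hπ, h]
  refine ⟨Equiv.ofBijective π ((Finite.injective_iff_bijective).1 hπi), fun j => ?_⟩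
  rw [hπ j, hβ]
  rfl

end

end Pool.Agent.TEX
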